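import Pool.Agent.RCM.Stmts

/-!
# Squad RCM, row FRZ (helper2): freeze one element
-/

set_option autoImplicit false

namespace Pool.Agent.RCM.H2

open Set Pool.Agent.RCM

universe u

variable {E : Type u} {K : Type}

theorem mv_mono {M N : Matroid E} {κ : E → K} {P P' : Set E} {X : Set K} (hP : P ⊆ P')
    {T T' : Set E} (h : Mv M N κ P' X T T') : Mv M N κ P X T T' := by
  obtain ⟨x, y, hy, hx1, hx2, hx3, hx4, rfl⟩ := h
  exact ⟨x, y, hy, hx1, hx2, fun h => hx3 (M.closure_subset_closure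
    (union_subset_union_right T hP) h), hx4, rfl⟩

theorem rc_mono {M N : Matroid E} {κ : E → K} {P P' : Set E} {X : Set K} (hP : P ⊆ P')
    {T T' : Set E} (h : Rc M N κ P' X T T') : Rc M N κ P X T T' :=
  Relation.ReflTransGen.mono (fun _ _ h => mv_mono hP h) _ _ h

theorem frz (hR : RchStmt.{u}) : FrzStmt.{u} := by
  intro E K _ _ M N κ s t P X T T' p hC hM hS hT hp
  obtain ⟨hS', -⟩ := hR E K M N κ s t P X T T' hC hM hS hT
  have hpE : p ∈ M.E := (hC.indM (κ p)).subset_ground rfl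
  have hsub : T' ∪ P ⊆ M.closure (T' ∪ P) := M.subset_closure _ hS'.fr.subset_ground
  have hpT : p ∉ T' := fun h => hp (hsub (Or.inl h))
  have hpP : p ∉ P := fun h => hp (hsub (Or.inr h))
  have hun : ∀ A : Set E, A ∪ insert p P = insert p (A ∪ P) := fun A => by
    rw [union_insert]
  have hSn : St M N κ (insert p P) X t T' := by
    refine ⟨hS'.ri, hS'.card, ?_, ?_, hS'.col⟩
    · rw [hun]
      exact (hS'.fr.notMem_closure_iff hpE).mp hp |>.1
    · rw [disjoint_insert_right]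
      exact ⟨hpT, hS'.dj⟩
  have hrc : ∀ T'', Rc M N κ (insert p P) X T' T'' → Rc M N κ P X T T'' := fun T'' h =>
    Relation.ReflTransGen.trans hT (rc_mono (subset_insert p P) h)
  refine ⟨hSn, ncard_insert_of_notMem hpP (toFinite P), ?_, ?_, ?_⟩
  · intro e he T'' h
    exact he T'' (hrc T'' h)
  · rintro c ⟨hc, T'', h, hcT⟩
    exact ⟨hc, T'', hrc T'' h, hcT⟩
  · intro T'' h
    refine ⟨hrc T'' h, ?_⟩
    obtain ⟨hS2, -⟩ := hR E K M N κ s t (insert p P) X T' T'' hC hM hSn h
    have h1 : p ∉ T'' := fun h => (disjoint_insert_right.mp hS2.dj).1 h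
    have h2 : M.Indep (insert p (T'' ∪ P)) := by rw [← hun]; exact hS2.fr
    have h3 : M.Indep (T'' ∪ P) := h2.subset (subset_insert _ _)
    exact (h3.notMem_closure_iff hpE).mpr ⟨h2, fun h => h.elim h1 hpP⟩

end Pool.Agent.RCM.H2
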